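import Pool.Agent.helper62.QU.Spec

/-!
# Row qu:GRN (MP_07c750_an): Green's formula
-/

open scoped MatrixGroups ContDiff Topology UpperHalfPlane
open UpperHalfPlane MeasureTheory Filter Set

set_option autoImplicit false

namespace Pool.Agent.QU

theorem GRN (h1 : CA1_stmt) (h2 : CA2_stmt) (h3 : DXI_stmt) : GRN_stmt := by
  intro E _ _ _ k φ hk hφ hs
  obtain ⟨c0, cmono, -, csmul, cder, -, dmul, -, -, dsup⟩ := h1 E
  obtain ⟨c0', cmono', -, -, cder', -, -, -, -, dsup'⟩ := h1 ℝ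
  have e2 : ((1 : ℕ) : WithTop ℕ∞) + 1 = 2 := by norm_num
  have e1 : ((0 : ℕ) : WithTop ℕ∞) + 1 = 1 := by norm_num
  have m12 : (1 : WithTop ℕ∞) ≤ 2 := by norm_num
  have hk1 : CD 1 k := cmono' k 1 2 m12 hk
  have hφ1 : CD 1 φ := cmono φ 1 2 m12 hφ
  have hdk := cder' k 1 (by rw [e2]; exact hk)
  have hdφ := cder φ 1 (by rw [e2]; exact hφ)
  rw [Nat.cast_one] at hdk hdφ
  -- continuity of the derivatives of functions of class 1
  have hcont : ∀ ψ : ℍ → E, CD 1 ψ → Continuous (dX ψ) ∧ Continuous (dY ψ) := by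
    intro ψ hψ
    have h := cder ψ 0 (by rw [e1]; exact hψ)
    rw [Nat.cast_zero] at h
    exact ⟨(c0 _).1 h.1, (c0 _).1 h.2⟩
  have hcontφ : ∀ ψ : ℍ → E, CD 1 ψ → Continuous ψ := fun ψ hψ =>
    (c0 _).1 (cmono ψ 0 1 (by norm_num) hψ)
  have hsup : ∀ ψ : ℍ → E, HasCompactSupport ψ →
      HasCompactSupport (dX ψ) ∧ HasCompactSupport (dY ψ) := fun ψ hψ =>
    ⟨IsCompact.of_isClosed_subset hψ (isClosed_tsupport _) (dsup ψ).1,
      IsCompact.of_isClosed_subset hψ (isClosed_tsupport _) (dsup ψ).2⟩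
  have hsk : HasCompactSupport (dX k) ∧ HasCompactSupport (dY k) :=
    ⟨IsCompact.of_isClosed_subset hs (isClosed_tsupport _) (dsup' k).1,
      IsCompact.of_isClosed_subset hs (isClosed_tsupport _) (dsup' k).2⟩
  have hint : ∀ ψ : ℍ → E, CD 1 ψ → HasCompactSupport ψ →
      Integrable ψ ∧ Integrable (dX ψ) ∧ Integrable (dY ψ) := fun ψ hψ hψs =>
    ⟨(hcontφ ψ hψ).integrable_of_hasCompactSupport hψs,
      (hcont ψ hψ).1.integrable_of_hasCompactSupport (hsup ψ hψs).1,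
      (hcont ψ hψ).2.integrable_of_hasCompactSupport (hsup ψ hψs).2⟩
  -- the four fields
  obtain ⟨u₁, hu₁⟩ : ∃ u : ℍ → E, u = fun z => k z • dX φ z := ⟨_, rfl⟩
  obtain ⟨u₂, hu₂⟩ : ∃ u : ℍ → E, u = fun z => dX k z • φ z := ⟨_, rfl⟩
  obtain ⟨v₁, hv₁⟩ : ∃ u : ℍ → E, u = fun z => k z • dY φ z := ⟨_, rfl⟩
  obtain ⟨v₂, hv₂⟩ : ∃ u : ℍ → E, u = fun z => dY k z • φ z := ⟨_, rfl⟩
  have cu₁ : CD 1 u₁ := by rw [hu₁]; exact csmul k (dX φ) 1 hk1 hdφ.1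
  have cu₂ : CD 1 u₂ := by rw [hu₂]; exact csmul (dX k) φ 1 hdk.1 hφ1
  have cv₁ : CD 1 v₁ := by rw [hv₁]; exact csmul k (dY φ) 1 hk1 hdφ.2
  have cv₂ : CD 1 v₂ := by rw [hv₂]; exact csmul (dY k) φ 1 hdk.2 hφ1
  have su₁ : HasCompactSupport u₁ := by rw [hu₁]; exact hs.smul_right
  have su₂ : HasCompactSupport u₂ := by rw [hu₂]; exact hsk.1.smul_right
  have sv₁ : HasCompactSupport v₁ := by rw [hv₁]; exact hs.smul_right
  have sv₂ : HasCompactSupport v₂ := by rw [hv₂]; exact hsk.2.smul_right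
  obtain ⟨iu₁, iu₁x, -⟩ := hint u₁ cu₁ su₁
  obtain ⟨iu₂, iu₂x, -⟩ := hint u₂ cu₂ su₂
  obtain ⟨iv₁, -, iv₁y⟩ := hint v₁ cv₁ sv₁
  obtain ⟨iv₂, -, iv₂y⟩ := hint v₂ cv₂ sv₂
  have du₁ : ∀ z, dX u₁ z = k z • dX (dX φ) z + dX k z • dX φ z := by
    intro z
    rw [hu₁]
    exact (dmul k (dX φ) hk1 hdφ.1 z).1
  have du₂ : ∀ z, dX u₂ z = dX k z • dX φ z + dX (dX k) z • φ z := by
    intro z
    rw [hu₂]
    exact (dmul (dX k) φ hdk.1 hφ1 z).1
  have dv₁ : ∀ z, dY v₁ z = k z • dY (dY φ) z + dY k z • dY φ z := by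
    intro z
    rw [hv₁]
    exact (dmul k (dY φ) hk1 hdφ.2 z).2
  have dv₂ : ∀ z, dY v₂ z = dY k z • dY φ z + dY (dY k) z • φ z := by
    intro z
    rw [hv₂]
    exact (dmul (dY k) φ hdk.2 hφ1 z).2
  have key : ∀ z, lap k z • φ z = k z • lap φ z - ((dX u₂ z - dX u₁ z) +
      ((dY v₂ z - v₂ z) - (dY v₁ z - v₁ z))) := by
    intro z
    have hlk : lap k z = -(dX (dX k) z) - dY (dY k) z + dY k z := (h2 ℝ k hk z).2
    have hgen : ∀ (a b c : ℝ) (x : E), (-a - b + c) • x = -(a • x) - b • x + c • x := by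
      intro a b c x
      rw [add_smul, sub_smul, _root_.neg_smul]
    rw [hlk, hgen, (h2 E φ hφ z).2, du₁, du₂, dv₁, dv₂, hv₁, hv₂]
    simp only [smul_add, smul_sub, smul_neg]
    abel
  have hlap : Continuous (lap φ) := by
    have e : lap φ = fun z => -dX (dX φ) z - dY (dY φ) z + dY φ z := by
      funext z
      exact (h2 E φ hφ z).2
    rw [e]
    have a1 := (hcont (dX φ) hdφ.1).1
    have a2 := (hcont (dY φ) hdφ.2).2
    have a3 := hcontφ (dY φ) hdφ.2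
    exact (a1.neg.sub a2).add a3
  have hkc : Continuous k := (c0' _).1 (cmono' k 0 2 (by norm_num) hk)
  have ikl : Integrable (fun z => k z • lap φ z) :=
    (hkc.smul hlap).integrable_of_hasCompactSupport hs.smul_right
  have hR : ∫ z : ℍ, ((dX u₂ z - dX u₁ z) + ((dY v₂ z - v₂ z) - (dY v₁ z - v₁ z))) = 0 := by
    have b1 : Integrable fun z => dX u₂ z - dX u₁ z := iu₂x.sub iu₁x
    have b2 : Integrable fun z => dY v₂ z - v₂ z := iv₂y.sub iv₂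
    have b3 : Integrable fun z => dY v₁ z - v₁ z := iv₁y.sub iv₁
    have b4 : Integrable fun z => (dY v₂ z - v₂ z) - (dY v₁ z - v₁ z) := b2.sub b3
    rw [integral_add b1 b4, integral_sub iu₂x iu₁x, integral_sub b2 b3, integral_sub iv₂y iv₂,
      integral_sub iv₁y iv₁, (h3 E u₂ cu₂ su₂).1, (h3 E u₁ cu₁ su₁).1, (h3 E v₂ cv₂ sv₂).2,
      (h3 E v₁ cv₁ sv₁).2]
    simp
  have iR : Integrable fun z => (dX u₂ z - dX u₁ z) + ((dY v₂ z - v₂ z) - (dY v₁ z - v₁ z)) :=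
    (iu₂x.sub iu₁x).add ((iv₂y.sub iv₂).sub (iv₁y.sub iv₁))
  have e : (fun z => lap k z • φ z) = fun z => k z • lap φ z - ((dX u₂ z - dX u₁ z) +
      ((dY v₂ z - v₂ z) - (dY v₁ z - v₁ z))) := funext key
  rw [e, integral_sub ikl iR, hR, sub_zero]

end Pool.Agent.QU
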